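import Mathlib
import Pool.Agent.Q92.BX.QuadMain

/-!
# MP_842b9f_an, Q1: not every non-integer base is an almost variational frequency base

Counterexamples: for every integer `a ≥ 3`, the base `β` with `β² = a β + a`.
-/

open Set Filter MeasureTheory Topology

namespace Pool.Agent.Results.MP_842b9f_an.NotVariational

/-- `ε` (with `ε i` the digit number `i + 1`) is a `β`-expansion of `x` over the alphabet
`{0, …, m - 1}`. -/
def IsExpansion (m : ℕ) (β x : ℝ) (ε : ℕ → Fin m) : Prop :=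
  HasSum (fun i : ℕ => ((ε i : ℕ) : ℝ) / β ^ (i + 1)) x

/-- The digit `k` has frequency `f` in `ε`. -/
def HasFreq {m : ℕ} (k : Fin m) (ε : ℕ → Fin m) (f : ℝ) : Prop :=
  Tendsto (fun n : ℕ => (((Finset.range n).filter fun i => ε i = k).card : ℝ) / n) atTop (𝓝 f)

/-- The condition defining almost variational frequency bases, with `m` digits. -/
def AlmostVariationalWith (m : ℕ) (β : ℝ) : Prop :=
  ∃ c > 0, ∀ p : Fin m → ℝ, (∀ j, p j ∈ Icc ((1 : ℝ) / m - c) (1 / m + c)) → ∑ j, p j = 1 →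
    ∀ᵐ x ∂(volume.restrict (Icc (0 : ℝ) (((m : ℝ) - 1) / (β - 1)))),
      ∃ ε : ℕ → Fin m, IsExpansion m β x ε ∧ ∀ j, HasFreq j ε (p j)

/-- `β` is an almost variational frequency base; the number of digits is `⌈β⌉`. -/
def AlmostVariational (β : ℝ) : Prop := AlmostVariationalWith ⌈β⌉₊ β

/-- For every integer `a ≥ 3` let `β = (a + √(a² + 4 a)) / 2`, the positive root of
`β² = a β + a`. Then `a < β < a + 1`, there is `κ < 2 / (a + 1)` such that for almost every
`x ∈ I_β` every expansion of `x` over `{0, …, a}` in which the digits `0` and `a` have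
frequencies `f` and `f'` satisfies `f + f' ≤ κ`, and `β` is not an almost variational frequency
base. In particular not every non-integer `β > 1` is one. -/
theorem result :
    (∀ a : ℕ, 3 ≤ a → ∀ β : ℝ, β = (a + √((a : ℝ) ^ 2 + 4 * a)) / 2 →
      ((a : ℝ) < β ∧ β < a + 1) ∧
      (∃ κ : ℝ, κ < 2 / (a + 1) ∧ ∀ᵐ x ∂(volume.restrict (Icc (0 : ℝ) (a / (β - 1)))),
        ∀ ε : ℕ → Fin (a + 1), IsExpansion (a + 1) β x ε → ∀ f f' : ℝ,
          HasFreq 0 ε f → HasFreq (Fin.last a) ε f' → f + f' ≤ κ) ∧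
      ¬ AlmostVariational β) ∧
    ¬ ∀ β : ℝ, 1 < β → (∀ n : ℕ, β ≠ n) → AlmostVariational β := by
  have main : ∀ a : ℕ, 3 ≤ a → ∀ β : ℝ, β = (a + √((a : ℝ) ^ 2 + 4 * a)) / 2 →
      ((a : ℝ) < β ∧ β < a + 1) ∧
      (∃ κ : ℝ, κ < 2 / (a + 1) ∧ ∀ᵐ x ∂(volume.restrict (Icc (0 : ℝ) (a / (β - 1)))),
        ∀ ε : ℕ → Fin (a + 1), IsExpansion (a + 1) β x ε → ∀ f f' : ℝ,
          HasFreq 0 ε f → HasFreq (Fin.last a) ε f' → f + f' ≤ κ) ∧
      ¬ AlmostVariational β := by
    intro a ha β hβ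
    have har : (3 : ℝ) ≤ a := by exact_mod_cast ha
    have hsq : √((a : ℝ) ^ 2 + 4 * a) ^ 2 = (a : ℝ) ^ 2 + 4 * a := Real.sq_sqrt (by positivity)
    have h : Q92.BX.QB a β := by
      refine ⟨ha, by rw [hβ]; positivity, ?_⟩
      rw [hβ]
      linear_combination (1 / 4 : ℝ) * hsq
    have hβ1 : 1 < β := by linarith [h.gt]
    have hae : ∀ᵐ x ∂(volume.restrict (Icc (0 : ℝ) (a / (β - 1)))),
        ∀ ε : ℕ → Fin (a + 1), IsExpansion (a + 1) β x ε → ∀ f f' : ℝ,
          HasFreq 0 ε f → HasFreq (Fin.last a) ε f' → f + f' ≤ Q92.BX.kap a β := by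
      rw [ae_restrict_iff' measurableSet_Icc]
      have h0 := Q92.BX.rich_null h
      have h1 : volume {x | ¬ (x ∈ Icc (0 : ℝ) (a / (β - 1)) →
          ∀ ε : ℕ → Fin (a + 1), IsExpansion (a + 1) β x ε → ∀ f f' : ℝ,
          HasFreq 0 ε f → HasFreq (Fin.last a) ε f' → f + f' ≤ Q92.BX.kap a β)} = 0 := by
        refine measure_mono_null ?_ h0
        intro x hx
        simp only [mem_ofPred_eq] at hx
        push Not at hx
        obtain ⟨hxI, ε, hε, f, f', hf, hf', hlt⟩ := hx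
        exact ⟨⟨ε, (Q92.BX.hasSum_iff hβ1).1 hε, f, f', hf, hf', hlt⟩, hxI⟩
      exact h1
    refine ⟨⟨h.gt, h.lt⟩, ⟨Q92.BX.kap a β, Q92.BX.kap_lt h, hae⟩, ?_⟩
    have hceil : ⌈β⌉₊ = a + 1 := by
      rw [Nat.ceil_eq_iff (by omega)]
      push_cast
      constructor
      · have := h.gt
        simpa using this
      · exact h.lt.le
    unfold AlmostVariational
    rw [hceil]
    rintro ⟨c, hc, hall⟩
    have hp := hall (fun _ => 1 / ((a + 1 : ℕ) : ℝ)) (fun j => ⟨by linarith, by linarith⟩) (by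
      rw [Finset.sum_const, Finset.card_univ, Fintype.card_fin, nsmul_eq_mul]
      have : ((a + 1 : ℕ) : ℝ) ≠ 0 := by positivity
      field_simp)
    have hend : (((a + 1 : ℕ) : ℝ) - 1) / (β - 1) = a / (β - 1) := by push_cast; ring
    rw [hend] at hp
    have hboth := hae.and hp
    have hpos : volume.restrict (Icc (0 : ℝ) (a / (β - 1))) ≠ 0 := by
      intro h0
      have h1 : volume.restrict (Icc (0 : ℝ) (a / (β - 1))) univ = 0 := by rw [h0]; rfl
      rw [Measure.restrict_apply MeasurableSet.univ, univ_inter, Real.volume_Icc, sub_zero,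
        ENNReal.ofReal_eq_zero] at h1
      have : 0 < (a : ℝ) / (β - 1) := div_pos (by linarith) (by linarith)
      linarith
    have hne : (ae (volume.restrict (Icc (0 : ℝ) (a / (β - 1))))).NeBot := ae_neBot.2 hpos
    obtain ⟨x, hx1, ε, hε, hfr⟩ := hboth.exists
    have h2 := hx1 ε hε _ _ (hfr 0) (hfr (Fin.last a))
    have h3 := Q92.BX.kap_lt h
    have h4 : (1 : ℝ) / ((a + 1 : ℕ) : ℝ) + 1 / ((a + 1 : ℕ) : ℝ) = 2 / (a + 1) := by
      push_cast; ring
    rw [h4] at h2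
    linarith
  refine ⟨main, fun hall => ?_⟩
  obtain ⟨⟨h1, h2⟩, -, h3⟩ := main 3 le_rfl _ rfl
  refine h3 (hall _ (by push_cast at h1 ⊢; linarith) fun n hn => ?_)
  rw [hn] at h1 h2
  have h4 : 3 < n := by exact_mod_cast h1
  have h5 : n < 4 := by
    have : (n : ℝ) < 4 := by push_cast at h2; linarith
    exact_mod_cast this
  omega

end Pool.Agent.Results.MP_842b9f_an.NotVariational
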